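import Pool.Agent.V1125.AddSystem

/-!
# Small integer solutions of systems of unit and addition equations
-/

set_option autoImplicit false

namespace Pool.Agent.Results.MP_80f852_al.SmallSolutions

open Pool.Agent.V1125.Minor Matrix

/-- There is a choice of rows and columns of maximal size with non-zero determinant. -/
theorem exists_max {n : ℕ} (x : Fin n → ℤ) (i0 : Fin n) :
    ∃ m : ℕ, ∃ (r : Fin m → (Fin n → ℤ)) (cols : Fin (m + 1) → Fin n),
      (∀ s, r s ∈ RR x i0) ∧ (MM r cols i0).det ≠ 0 ∧
      ∀ p ∈ RR x i0, ∀ j : Fin n,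
        (MM (Fin.snoc r p : Fin (m + 1) → (Fin n → ℤ)) (Fin.snoc cols j) i0).det = 0 := by
  by_contra hcon
  push Not at hcon
  have key : ∀ m : ℕ, ∃ (r : Fin m → (Fin n → ℤ)) (cols : Fin (m + 1) → Fin n),
      (∀ s, r s ∈ RR x i0) ∧ (MM r cols i0).det ≠ 0 := by
    intro m
    induction m with
    | zero =>
      refine ⟨Fin.elim0, fun _ => i0, fun s => s.elim0, ?_⟩
      rw [Matrix.det_fin_one]
      show (Pi.single i0 (1 : ℤ) : Fin n → ℤ) i0 ≠ 0
      rw [Pi.single_eq_same]
      exact one_ne_zero
    | succ m ih =>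
      obtain ⟨r, cols, hr, hD⟩ := ih
      obtain ⟨p, hp, j, hj⟩ := hcon m r cols hr hD
      refine ⟨Fin.snoc r p, Fin.snoc cols j, ?_, hj⟩
      intro s
      refine Fin.lastCases ?_ (fun s => ?_) s
      · rw [Fin.snoc_last]
        exact hp
      · rw [Fin.snoc_castSucc]
        exact hr s
  obtain ⟨r, cols, -, hD⟩ := key n
  have hinj : ¬ Function.Injective cols := by
    intro h
    have := Fintype.card_le_of_injective cols h
    simp at this
  unfold Function.Injective at hinj
  push Not at hinj
  obtain ⟨a, b, hab, hne⟩ := hinj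
  apply hD
  refine Matrix.det_zero_of_column_eq hne fun s => ?_
  show AA r i0 s (cols a) = AA r i0 s (cols b)
  rw [hab]

/-- For every `n ≥ 1` and every integer tuple `x` there is an integer tuple `y` with
`|y i| ≤ 2 ^ (n - 1)` that satisfies every equation of the shape `z i = 1` or
`z i + z j = z k` satisfied by `x`. -/
theorem result (n : ℕ) (_hn : 1 ≤ n) (x : Fin n → ℤ) :
    ∃ y : Fin n → ℤ, (∀ i, |y i| ≤ 2 ^ (n - 1)) ∧ (∀ i, x i = 1 → y i = 1) ∧
      (∀ i j k, x k = x i + x j → y k = y i + y j) := by
  classical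
  by_cases hu : ∃ i0, x i0 = 1
  swap
  · push Not at hu
    refine ⟨0, fun i => ?_, fun i hi => absurd hi (hu i), fun i j k _ => ?_⟩
    · simp
    · simp
  obtain ⟨i0, hi0⟩ := hu
  obtain ⟨m, r, cols, hr, hD, hmax⟩ := exists_max x i0
  have hinj : Function.Injective cols := by
    intro a b hab
    by_contra hne
    apply hD
    refine Matrix.det_zero_of_column_eq hne fun s => ?_
    show AA r i0 s (cols a) = AA r i0 s (cols b)
    rw [hab]
  have hmn : m + 1 ≤ n := by
    have := Fintype.card_le_of_injective cols hinj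
    simpa using this
  set D := (MM r cols i0).det with hDdef
  -- the rounding
  have hq : ∀ j : Fin n, ∃ q : ℤ, 2 * |x j - q * D| ≤ |D| := fun j => exists_round (x j) D hD
  choose q0 hq0 using hq
  let B : Finset (Fin n) := Finset.univ.image cols
  let q : Fin n → ℤ := fun j => if j ∈ B then 0 else q0 j
  let κ : Fin n → Fin (m + 1) → ℤ := kap r cols i0
  let y : Fin n → ℤ := fun i => x i - D * q i + ∑ j, q j * ∑ c, κ j c * (if cols c = i then 1 else 0)
  -- the pairing with a row
  have hpair : ∀ p : Fin n → ℤ, (∀ j, ∑ c, p (cols c) * κ j c = D * p j) →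
      ∑ i, p i * y i = ∑ i, p i * x i := by
    intro p hp
    have e1 : ∑ i, p i * y i = ∑ i, p i * x i - D * ∑ i, p i * q i +
        ∑ i, p i * ∑ j, q j * ∑ c, κ j c * (if cols c = i then 1 else 0) := by
      rw [Finset.mul_sum, ← Finset.sum_sub_distrib, ← Finset.sum_add_distrib]
      refine Finset.sum_congr rfl fun i _ => ?_
      show p i * (x i - D * q i + _) = _
      ring
    have e2 : ∑ i, p i * ∑ j, q j * ∑ c, κ j c * (if cols c = i then 1 else 0) =
        ∑ j, q j * ∑ c, p (cols c) * κ j c := by
      simp_rw [Finset.mul_sum]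
      rw [Finset.sum_comm]
      refine Finset.sum_congr rfl fun j _ => ?_
      rw [Finset.sum_comm]
      refine Finset.sum_congr rfl fun c _ => ?_
      rw [Finset.sum_eq_single (cols c)]
      · rw [if_pos rfl]
        ring
      · intro i _ hi
        rw [if_neg (Ne.symm hi)]
        ring
      · intro h
        exact absurd (Finset.mem_univ _) h
    rw [e1, e2]
    have e3 : ∑ j, q j * ∑ c, p (cols c) * κ j c = D * ∑ i, p i * q i := by
      rw [Finset.mul_sum]
      refine Finset.sum_congr rfl fun j _ => ?_
      rw [hp j]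
      ring
    rw [e3]
    ring
  have hsingle : ∀ (i : Fin n) (z : Fin n → ℤ), ∑ k, (Pi.single i (1 : ℤ) : Fin n → ℤ) k * z k = z i := by
    intro i z
    rw [Finset.sum_eq_single i]
    · rw [Pi.single_eq_same, one_mul]
    · intro k _ hk
      rw [Pi.single_eq_of_ne hk, zero_mul]
    · intro h
      exact absurd (Finset.mem_univ _) h
  have hy0 : y i0 = 1 := by
    have h := hpair (Pi.single i0 1) (fun j => by
      have := kap_row (r := r) (cols := cols) (i0 := i0) 0 j
      exact this)
    rw [hsingle, hsingle] at h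
    rw [h, hi0]
  have hR : ∀ p ∈ RR x i0, ∑ i, p i * y i = ∑ i, p i * x i := fun p hp =>
    hpair p fun j => kap_rel hD j (hmax p hp j)
  -- the decomposition of `x`
  have hdec : ∀ c, D * x (cols c) + ∑ j ∈ Finset.univ.filter (fun j => j ∉ B), x j * κ j c =
      (MM r cols i0).cramer (Pi.single 0 1) c := by
    have hrow : ∀ s, ∑ j, AA r i0 s j * x j = (Pi.single 0 (1 : ℤ) : Fin (m + 1) → ℤ) s := by
      intro s
      refine Fin.cases ?_ (fun s => ?_) s
      · rw [Pi.single_eq_same]
        show ∑ j, (Pi.single i0 (1 : ℤ) : Fin n → ℤ) j * x j = 1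
        rw [hsingle, hi0]
      · rw [Pi.single_eq_of_ne (Fin.succ_ne_zero s)]
        show ∑ j, r s j * x j = 0
        rcases hr s with ⟨i, j, k, h, hrs⟩ | ⟨i, h, hrs⟩
        · have : ∑ l, r s l * x l = ∑ l, (Pi.single i (1 : ℤ) : Fin n → ℤ) l * x l +
              ∑ l, (Pi.single j (1 : ℤ) : Fin n → ℤ) l * x l -
              ∑ l, (Pi.single k (1 : ℤ) : Fin n → ℤ) l * x l := by
            rw [← Finset.sum_add_distrib, ← Finset.sum_sub_distrib]
            refine Finset.sum_congr rfl fun l _ => ?_
            rw [hrs, Pi.sub_apply, Pi.add_apply]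
            ring
          rw [this, hsingle, hsingle, hsingle, h]
          ring
        · have : ∑ l, r s l * x l = ∑ l, (Pi.single i (1 : ℤ) : Fin n → ℤ) l * x l -
              ∑ l, (Pi.single i0 (1 : ℤ) : Fin n → ℤ) l * x l := by
            rw [← Finset.sum_sub_distrib]
            refine Finset.sum_congr rfl fun l _ => ?_
            rw [hrs, Pi.sub_apply]
            ring
          rw [this, hsingle, hsingle, h, hi0]
          ring
    have hvec : (MM r cols i0).mulVec (fun c => x (cols c)) +
        ∑ j ∈ Finset.univ.filter (fun j => j ∉ B), x j • (fun s => AA r i0 s j) =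
        Pi.single 0 1 := by
      funext s
      rw [← hrow s, Pi.add_apply, Finset.sum_apply]
      have e1 : (MM r cols i0).mulVec (fun c => x (cols c)) s =
          ∑ j ∈ Finset.univ.filter (fun j => j ∈ B), AA r i0 s j * x j := by
        have : Finset.univ.filter (fun j => j ∈ B) = Finset.univ.image cols := by
          ext j
          simp [B]
        rw [this, Finset.sum_image (fun a _ b _ h => hinj h)]
        rfl
      have e2 : ∑ c ∈ Finset.univ.filter (fun j => j ∉ B), (x c • (fun s => AA r i0 s c)) s =
          ∑ j ∈ Finset.univ.filter (fun j => j ∉ B), AA r i0 s j * x j := by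
        refine Finset.sum_congr rfl fun j _ => ?_
        rw [Pi.smul_apply, smul_eq_mul, mul_comm]
      rw [e1, e2]
      exact Finset.sum_filter_add_sum_filter_not _ _ _
    intro c
    have h6 := congrArg ((MM r cols i0).adjugate.mulVec) hvec
    rw [Matrix.mulVec_add, Matrix.mulVec_mulVec, Matrix.adjugate_mul, Matrix.smul_mulVec,
      Matrix.one_mulVec, Matrix.mulVec_sum, ← Matrix.cramer_eq_adjugate_mulVec] at h6
    have h7 := congrFun h6 c
    rw [Pi.add_apply, Pi.smul_apply, smul_eq_mul, Finset.sum_apply] at h7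
    rw [← h7]
    congr 1
    refine Finset.sum_congr rfl fun j _ => ?_
    rw [Matrix.mulVec_smul, Pi.smul_apply, smul_eq_mul, ← Matrix.cramer_eq_adjugate_mulVec]
    rfl
  have hpow : (0 : ℤ) < 2 ^ m := by positivity
  have hDle : |D| ≤ 2 ^ m := det_le hr cols
  have hD1 : 1 ≤ |D| := Int.one_le_abs hD
  have hmono : (2 : ℤ) ^ m ≤ 2 ^ (n - 1) := pow_le_pow_right₀ (by norm_num) (by omega)
  refine ⟨y, fun i => ?_, fun i hi => ?_, fun i j k hijk => ?_⟩
  · by_cases hiB : i ∈ B
    · -- a basic coordinate
      obtain ⟨c, -, rfl⟩ := Finset.mem_image.1 hiB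
      have hy : y (cols c) = x (cols c) + ∑ j ∈ Finset.univ.filter (fun j => j ∉ B), q0 j * κ j c := by
        show x (cols c) - D * q (cols c) +
          ∑ j, q j * ∑ d, κ j d * (if cols d = cols c then 1 else 0) = _
        have e1 : q (cols c) = 0 := if_pos hiB
        have e2 : ∀ j, ∑ d, κ j d * (if cols d = cols c then 1 else 0) = κ j c := by
          intro j
          rw [Finset.sum_eq_single c]
          · rw [if_pos rfl, mul_one]
          · intro d _ hd
            rw [if_neg (fun h => hd (hinj h)), mul_zero]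
          · intro h
            exact absurd (Finset.mem_univ _) h
        rw [e1, mul_zero, sub_zero]
        congr 1
        rw [Finset.sum_filter]
        refine Finset.sum_congr rfl fun j _ => ?_
        rw [e2]
        show (if j ∈ B then 0 else q0 j) * κ j c = _
        by_cases hj : j ∈ B
        · rw [if_pos hj, if_neg (by simpa using hj), zero_mul]
        · rw [if_neg hj, if_pos hj]
      have hDy : D * y (cols c) = (MM r cols i0).cramer (Pi.single 0 1) c -
          ∑ j ∈ Finset.univ.filter (fun j => j ∉ B), (x j - q0 j * D) * κ j c := by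
        rw [hy, ← hdec c]
        have e3 : ∑ j ∈ Finset.univ.filter (fun j => j ∉ B), (x j - q0 j * D) * κ j c =
            ∑ j ∈ Finset.univ.filter (fun j => j ∉ B), x j * κ j c -
            D * ∑ j ∈ Finset.univ.filter (fun j => j ∉ B), q0 j * κ j c := by
          rw [Finset.mul_sum, ← Finset.sum_sub_distrib]
          refine Finset.sum_congr rfl fun j _ => ?_
          ring
        rw [e3]
        ring
      have hb := b_le hr hinj c
      have hsum : 2 * |∑ j ∈ Finset.univ.filter (fun j => j ∉ B), (x j - q0 j * D) * κ j c| ≤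
          (n - (m + 1) : ℕ) * (|D| * 2 ^ m) := by
        have h1 := Finset.abs_sum_le_sum_abs
          (fun j => (x j - q0 j * D) * κ j c) (Finset.univ.filter (fun j => j ∉ B))
        have h2 : ∑ j ∈ Finset.univ.filter (fun j => j ∉ B), 2 * |(x j - q0 j * D) * κ j c| ≤
            ∑ _j ∈ Finset.univ.filter (fun j => j ∉ B), |D| * 2 ^ m := by
          refine Finset.sum_le_sum fun j _ => ?_
          rw [abs_mul, ← mul_assoc]
          exact mul_le_mul (hq0 j) (kap_le hr j c) (abs_nonneg _) (abs_nonneg _)
        have h3 : (Finset.univ.filter (fun j => j ∉ B)).card = n - (m + 1) := by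
          have h4 : Finset.univ.filter (fun j => j ∉ B) = Finset.univ \ B := by
            ext j
            simp
          rw [h4, Finset.card_sdiff_of_subset (Finset.subset_univ _), Finset.card_univ,
            Fintype.card_fin, Finset.card_image_of_injective _ hinj, Finset.card_univ,
            Fintype.card_fin]
        rw [Finset.sum_const, h3, nsmul_eq_mul, ← Finset.mul_sum] at h2
        linarith
      have h4 : |D| * (2 * |y (cols c)|) ≤ |D| * ((2 + (n - (m + 1) : ℕ)) * 2 ^ m) := by
        have h5 : |D * y (cols c)| ≤ |(MM r cols i0).cramer (Pi.single 0 1) c| +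
            |∑ j ∈ Finset.univ.filter (fun j => j ∉ B), (x j - q0 j * D) * κ j c| := by
          rw [hDy]
          exact abs_sub _ _
        rw [abs_mul] at h5
        have h6 : (2 : ℤ) * 2 ^ m ≤ |D| * (2 * 2 ^ m) := by nlinarith
        nlinarith
      have h5 : 2 * |y (cols c)| ≤ (2 + (n - (m + 1) : ℕ)) * 2 ^ m :=
        le_of_mul_le_mul_left h4 (by linarith)
      have h6 : (2 : ℤ) + (n - (m + 1) : ℕ) ≤ 2 ^ (n - (m + 1) + 1) := by
        have : ∀ t : ℕ, 2 + t ≤ 2 ^ (t + 1) := by
          intro t
          induction t with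
          | zero => norm_num
          | succ t ih =>
            rw [pow_succ]
            have : 1 ≤ 2 ^ (t + 1) := Nat.one_le_two_pow
            omega
        exact_mod_cast this _
      have h7 : (2 + (n - (m + 1) : ℕ)) * (2 : ℤ) ^ m ≤ 2 ^ (n - (m + 1) + 1) * 2 ^ m :=
        mul_le_mul_of_nonneg_right h6 hpow.le
      have h8 : (2 : ℤ) ^ (n - (m + 1) + 1) * 2 ^ m = 2 * 2 ^ (n - 1) := by
        rw [← pow_add, ← pow_succ']
        congr 1
        omega
      rw [h8] at h7
      linarith
    · -- a free coordinate
      have hy : y i = x i - q0 i * D := by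
        show x i - D * q i + ∑ j, q j * ∑ c, κ j c * (if cols c = i then 1 else 0) = _
        have e1 : q i = q0 i := if_neg hiB
        have e2 : ∀ j, ∑ c, κ j c * (if cols c = i then 1 else 0) = 0 := by
          intro j
          refine Finset.sum_eq_zero fun c _ => ?_
          rw [if_neg, mul_zero]
          rintro rfl
          exact hiB (Finset.mem_image.2 ⟨c, Finset.mem_univ _, rfl⟩)
        rw [e1]
        simp only [e2, mul_zero, Finset.sum_const_zero, add_zero]
        ring
      have h1 := hq0 i
      rw [← hy] at h1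
      have h2 := abs_nonneg (y i)
      linarith
  · have h := hR (Pi.single i 1 - Pi.single i0 1) (Or.inr ⟨i, hi, rfl⟩)
    have e : ∀ z : Fin n → ℤ, ∑ k, ((Pi.single i 1 - Pi.single i0 1 : Fin n → ℤ)) k * z k =
        z i - z i0 := by
      intro z
      rw [← hsingle i z, ← hsingle i0 z, ← Finset.sum_sub_distrib]
      refine Finset.sum_congr rfl fun k _ => ?_
      rw [Pi.sub_apply]
      ring
    rw [e, e] at h
    linarith
  · have h := hR (Pi.single i 1 + Pi.single j 1 - Pi.single k 1) (Or.inl ⟨i, j, k, hijk, rfl⟩)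
    have e : ∀ z : Fin n → ℤ,
        ∑ l, ((Pi.single i 1 + Pi.single j 1 - Pi.single k 1 : Fin n → ℤ)) l * z l =
        z i + z j - z k := by
      intro z
      rw [← hsingle i z, ← hsingle j z, ← hsingle k z, ← Finset.sum_add_distrib,
        ← Finset.sum_sub_distrib]
      refine Finset.sum_congr rfl fun l _ => ?_
      rw [Pi.sub_apply, Pi.add_apply]
      ring
    rw [e, e] at h
    linarith

end Pool.Agent.Results.MP_80f852_al.SmallSolutions
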